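import Pool.Agent.Q156.RM.M

/-!
# Radial mean bodies of negative order embed in `L^q`

`E n` is Euclidean space, `IsConvexBody`, `radial` (radial function), `translate K x = K - x`,
`radialMean K p` (radial function of `R_p K`), `EmbedsInLq`, `ft` (Fourier transform), `pairing K p φ`
(the Fourier transform of `Γ(p/2) ρ_{R_p K}^p`, applied to `φ`), `IsTest` (test functions supported
off the origin), `GivenBy` and `cube` are defined in `Pool.Agent.Q156.RM`.
-/

open MeasureTheory Set Filter Topology Real Pool.Agent.Q156.RM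
open scoped ENNReal FourierTransform RealInnerProductSpace ContDiff

namespace Pool.Agent.Results.MP_fd6526_gt.RadialMeanBodies

/-- **Answers to Q1 (yes) and Q2 (no).** Let `n ≥ 3` and `-1 < p < 0`.
For every convex body `K` the radial mean body `R_p K` embeds in `L^{-p}`; the distribution
`Γ(p/2) ρ^p` is positive definite (its Fourier transform is nonnegative on nonnegative test
functions supported off the origin); off the origin this Fourier transform is a nonnegative
function `G`, homogeneous of degree `p - n`.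
For the cube the restriction of that function to the unit sphere is not the radial function of any
star-shaped set of finite volume. -/
theorem result (n : ℕ) (hn : 3 ≤ n) (p : ℝ) (hp : -1 < p) (hp0 : p < 0) :
    (∀ K : Set (E n), IsConvexBody K →
      (∀ x : E n, x ≠ 0 → 0 < radialMean K p x) ∧
      EmbedsInLq (radialMean K p) (-p) ∧
      (∀ φ : E n → ℝ, IsTest φ → (∀ x, 0 ≤ φ x) → ∃ r : ℝ, 0 ≤ r ∧ pairing K p φ = (r : ℂ)) ∧
      ∃ G : E n → ℝ, (∀ x, 0 ≤ G x) ∧
        (∀ c : ℝ, 0 < c → ∀ x, G (c • x) = c ^ (p - n) * G x) ∧ GivenBy K p G) ∧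
    IsConvexBody (cube n) ∧
    ¬ ∃ L : Set (E n), StarConvex ℝ 0 L ∧ volume L < ⊤ ∧
      GivenBy (cube n) p (fun x => ‖x‖ ^ (p - n) * radial L (‖x‖⁻¹ • x)) := by
  have hn0 : 0 < n := by omega
  obtain ⟨q, rfl⟩ : ∃ q : ℝ, p = -q := ⟨-p, by ring⟩
  have hq : 0 < q := by linarith
  have hq1 : q < 1 := by linarith
  refine ⟨fun K hK => ⟨fun x hx => radialMean_pos hK hq hq1 hx, ?_, ?_, ?_⟩,
    cube_isConvexBody n, cube_no hn hq hq1⟩
  · rw [neg_neg]
    exact embeds hK hq hq1
  · intro φ hφ h0
    exact ⟨_, mul_nonneg (kap_pos hK hq hq1).le (integral_nonneg h0),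
      pairing_eq hK hq hq1 hn0 hφ⟩
  · refine ⟨fun ζ => kap K q * (Gi K q ζ).toReal, fun x =>
      mul_nonneg (kap_pos hK hq hq1).le ENNReal.toReal_nonneg, fun c hc x => ?_,
      givenBy_Gi hK hq hq1 hn0⟩
    dsimp only
    rw [Gi_smul hK.compact hc, ENNReal.toReal_mul, ENNReal.toReal_ofReal (by positivity)]
    ring

end Pool.Agent.Results.MP_fd6526_gt.RadialMeanBodies
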